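import Mathlib

set_option autoImplicit false

open Complex Set Filter Topology
open scoped ComplexConjugate

/-!
The real part of `L'/L(1/2, χ)` is determined by the functional equation.
-/

namespace Pool.Agent.Y847

set_option linter.unusedSectionVars false

variable {q : ℕ} [NeZero q] {χ : DirichletCharacter ℂ q}

lemma chi_inv_conj (χ : DirichletCharacter ℂ q) (a : ZMod q) : χ⁻¹ a = conj (χ a) := by
  rw [← MulChar.star_eq_inv, MulChar.star_apply]
  rfl

lemma LFunction_conj_of_one_lt (χ : DirichletCharacter ℂ q) {s : ℂ} (hs : 1 < s.re) :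
    DirichletCharacter.LFunction χ⁻¹ (conj s) = conj (DirichletCharacter.LFunction χ s) := by
  rw [DirichletCharacter.LFunction_eq_LSeries _ (by rwa [conj_re]),
    DirichletCharacter.LFunction_eq_LSeries _ hs, LSeries, LSeries, conj_tsum]
  congr 1
  ext n
  rcases eq_or_ne n 0 with rfl | hn
  · simp [LSeries.term_zero]
  · rw [LSeries.term_of_ne_zero hn, LSeries.term_of_ne_zero hn, map_div₀, chi_inv_conj]
    congr 1
    have h := Complex.cpow_conj (n : ℂ) s (by
      rw [Complex.natCast_arg]
      exact Real.pi_pos.ne)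
    rw [Complex.conj_natCast] at h
    exact h

lemma GammaR_conj (s : ℂ) : Gammaℝ (conj s) = conj (Gammaℝ s) := by
  rw [Gammaℝ_def, Gammaℝ_def, map_mul, ← Complex.Gamma_conj]
  congr 1
  · have h := Complex.cpow_conj (Real.pi : ℂ) (-s / 2) (by
      rw [Complex.arg_ofReal_of_nonneg Real.pi_pos.le]
      exact Real.pi_pos.ne)
    rw [Complex.conj_ofReal] at h
    rw [← h, map_div₀, map_neg, map_ofNat]
  · rw [map_div₀, map_ofNat]

lemma inv_even (h : χ.Even) : χ⁻¹.Even := by
  have h1 : χ (-1) = 1 := h
  change χ⁻¹ (-1) = 1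
  rw [chi_inv_conj, h1, map_one]

lemma inv_odd (h : χ.Odd) : χ⁻¹.Odd := by
  have h1 : χ (-1) = -1 := h
  change χ⁻¹ (-1) = -1
  rw [chi_inv_conj, h1, map_neg, map_one]

lemma gammaFactor_conj (s : ℂ) :
    DirichletCharacter.gammaFactor χ⁻¹ (conj s) = conj (DirichletCharacter.gammaFactor χ s) := by
  rcases χ.even_or_odd with h | h
  · rw [h.gammaFactor_def, (inv_even h).gammaFactor_def, GammaR_conj]
  · rw [h.gammaFactor_def, (inv_odd h).gammaFactor_def, ← GammaR_conj, map_add, map_one]

lemma gammaFactor_ne_zero {s : ℂ} (hs : 0 < s.re) : DirichletCharacter.gammaFactor χ s ≠ 0 := by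
  rcases χ.even_or_odd with h | h
  · rw [h.gammaFactor_def]
    exact Gammaℝ_ne_zero_of_re_pos hs
  · rw [h.gammaFactor_def]
    apply Gammaℝ_ne_zero_of_re_pos
    rw [add_re, one_re]
    linarith

lemma completed_eq' {s : ℂ} (hq : q ≠ 1) (hs : 0 < s.re) :
    DirichletCharacter.completedLFunction χ s =
      DirichletCharacter.LFunction χ s * DirichletCharacter.gammaFactor χ s := by
  rw [DirichletCharacter.LFunction_eq_completed_div_gammaFactor χ s (Or.inr hq),
    div_mul_cancel₀ _ (gammaFactor_ne_zero hs)]

lemma completed_conj' (hq : q ≠ 1) (h1 : χ ≠ 1) (s : ℂ) :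
    DirichletCharacter.completedLFunction χ⁻¹ (conj s) =
      conj (DirichletCharacter.completedLFunction χ s) := by
  have h2 : χ⁻¹ ≠ 1 := inv_ne_one.2 h1
  have hd1 := DirichletCharacter.differentiable_completedLFunction h1
  have hd2 := DirichletCharacter.differentiable_completedLFunction h2
  have hA : AnalyticOnNhd ℂ
      (fun s => conj (DirichletCharacter.completedLFunction χ⁻¹ (conj s))) univ := by
    intro z _
    have hd : Differentiable ℂ
        (fun s => conj (DirichletCharacter.completedLFunction χ⁻¹ (conj s))) := by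
      intro w
      have h3 := (hd2 (conj w)).hasDerivAt.conj_conj
      rw [Complex.conj_conj] at h3
      exact h3.differentiableAt
    exact hd.analyticAt z
  have hB : AnalyticOnNhd ℂ (DirichletCharacter.completedLFunction χ) univ :=
    fun z _ => hd1.analyticAt z
  have hev : (fun s => conj (DirichletCharacter.completedLFunction χ⁻¹ (conj s))) =ᶠ[𝓝 (2 : ℂ)]
      DirichletCharacter.completedLFunction χ := by
    have hmem : {z : ℂ | 1 < z.re} ∈ 𝓝 (2 : ℂ) :=
      (isOpen_lt continuous_const continuous_re).mem_nhds (by simp)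
    filter_upwards [hmem] with z hz
    have hz' : 1 < z.re := hz
    rw [completed_eq' hq (χ := χ⁻¹) (s := conj z) (by rw [conj_re]; linarith),
      completed_eq' hq (by linarith), LFunction_conj_of_one_lt χ hz', gammaFactor_conj, ← map_mul,
      Complex.conj_conj]
  have h4 := hA.eqOn_of_preconnected_of_eventuallyEq hB isPreconnected_univ (mem_univ _) hev
    (mem_univ s)
  have h5 := congrArg conj h4
  simp only [Complex.conj_conj] at h5
  exact h5

lemma deriv_completed_conj (hq : q ≠ 1) (h1 : χ ≠ 1) (s : ℂ) :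
    deriv (DirichletCharacter.completedLFunction χ⁻¹) (conj s) =
      conj (deriv (DirichletCharacter.completedLFunction χ) s) := by
  have hd1 := DirichletCharacter.differentiable_completedLFunction h1
  have h3 := (hd1 s).hasDerivAt.conj_conj
  have h4 : (conj ∘ DirichletCharacter.completedLFunction χ ∘ conj) =
      DirichletCharacter.completedLFunction χ⁻¹ := by
    funext z
    simp only [Function.comp]
    rw [← completed_conj' hq h1, Complex.conj_conj]
  rw [h4] at h3
  exact h3.deriv

/-- The real part of the logarithmic derivative of the completed `L`-function at the centre. -/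
theorem re_logDeriv_completed (hq : q ≠ 1) (hχ : χ.IsPrimitive) (h1 : χ ≠ 1)
    (hne : DirichletCharacter.completedLFunction χ (1 / 2) ≠ 0) :
    (deriv (DirichletCharacter.completedLFunction χ) (1 / 2) /
      DirichletCharacter.completedLFunction χ (1 / 2)).re = -(1 / 2) * Real.log q := by
  have h2 : χ⁻¹ ≠ 1 := inv_ne_one.2 h1
  have hd1 := DirichletCharacter.differentiable_completedLFunction h1
  have hd2 := DirichletCharacter.differentiable_completedLFunction h2
  have hq0 : (q : ℂ) ≠ 0 := NeZero.ne _
  have hconj : conj (1 / 2 : ℂ) = 1 / 2 := by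
    rw [map_div₀, map_one, map_ofNat]
  have hb := completed_conj' hq h1 (1 / 2)
  rw [hconj] at hb
  have hb' := deriv_completed_conj hq h1 (1 / 2)
  rw [hconj] at hb'
  have hfe := hχ.completedLFunction_one_sub
  have e0 := hfe (1 / 2)
  rw [sub_self, cpow_zero, one_mul, hb, show (1 : ℂ) - 1 / 2 = 1 / 2 by norm_num] at e0
  -- derivatives of both sides at 1/2
  have hL : HasDerivAt (fun s : ℂ => DirichletCharacter.completedLFunction χ (1 - s))
      (-deriv (DirichletCharacter.completedLFunction χ) (1 / 2)) (1 / 2) := by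
    have h3 : HasDerivAt (fun s : ℂ => 1 - s) (-1) (1 / 2) := by
      simpa using (hasDerivAt_id (1 / 2 : ℂ)).const_sub 1
    have h4 : HasDerivAt (DirichletCharacter.completedLFunction χ)
        (deriv (DirichletCharacter.completedLFunction χ) (1 / 2)) (1 - 1 / 2) := by
      rw [show (1 : ℂ) - 1 / 2 = 1 / 2 by norm_num]
      exact (hd1 _).hasDerivAt
    have h5 := h4.comp (1 / 2 : ℂ) h3
    simpa [Function.comp_def] using h5
  have hP : HasDerivAt (fun s : ℂ => (q : ℂ) ^ (s - 1 / 2)) (Complex.log q) (1 / 2) := by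
    have h3 : HasDerivAt (fun s : ℂ => s - 1 / 2) 1 (1 / 2) := (hasDerivAt_id _).sub_const _
    have h4 := h3.const_cpow (c := (q : ℂ)) (Or.inl hq0)
    simpa using h4
  have hR : HasDerivAt (fun s : ℂ => (q : ℂ) ^ (s - 1 / 2) *
      DirichletCharacter.rootNumber χ * DirichletCharacter.completedLFunction χ⁻¹ s)
      (Complex.log q * DirichletCharacter.rootNumber χ *
        DirichletCharacter.completedLFunction χ⁻¹ (1 / 2) +
        (q : ℂ) ^ ((1 / 2 : ℂ) - 1 / 2) * DirichletCharacter.rootNumber χ *
        deriv (DirichletCharacter.completedLFunction χ⁻¹) (1 / 2)) (1 / 2) :=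
    (hP.mul_const _).mul (hd2 _).hasDerivAt
  have hfun : (fun s : ℂ => DirichletCharacter.completedLFunction χ (1 - s)) =
      fun s : ℂ => (q : ℂ) ^ (s - 1 / 2) *
      DirichletCharacter.rootNumber χ * DirichletCharacter.completedLFunction χ⁻¹ s := by
    funext s
    exact hfe s
  rw [hfun] at hL
  have e1 := hL.unique hR
  rw [sub_self, cpow_zero, one_mul, hb, hb'] at e1
  set a := DirichletCharacter.completedLFunction χ (1 / 2) with ha
  set a' := deriv (DirichletCharacter.completedLFunction χ) (1 / 2) with ha'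
  set W := DirichletCharacter.rootNumber χ with hW
  have hca : conj a ≠ 0 := (map_ne_zero _).2 hne
  have hWeq : W = a / conj a := by
    rw [eq_div_iff hca]
    exact e0.symm
  have e2 : -(a' / a) = Complex.log q + conj (a' / a) := by
    rw [map_div₀]
    have e3 : -a' / a = (Complex.log q * W * conj a + W * conj a') / a := by rw [e1]
    rw [hWeq] at e3
    rw [← neg_div, e3]
    field_simp
  have e4 := congrArg Complex.re e2
  rw [neg_re, add_re, conj_re, Complex.natCast_log.symm, ofReal_re] at e4
  linarith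

lemma differentiableAt_Gammaℝ {s : ℂ} (hs : 0 < s.re) : DifferentiableAt ℂ Gammaℝ s := by
  have h1 : DifferentiableAt ℂ (fun s => (Gammaℝ s)⁻¹) s := differentiable_Gammaℝ_inv s
  have h2 := h1.inv (inv_ne_zero (Gammaℝ_ne_zero_of_re_pos hs))
  have h3 : (fun s => (Gammaℝ s)⁻¹)⁻¹ = Gammaℝ := by
    funext z
    simp
  rw [h3] at h2
  exact h2

/-- There is an absolute constant `C` with `Re L'/L(1/2, χ) ≤ C - (1/2) log q` for every
non-principal character to a prime modulus with `L(1/2, χ) ≠ 0`. -/
theorem re_logDeriv_le : ∃ C : ℝ, ∀ (q : ℕ) [NeZero q], q.Prime →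
    ∀ χ : DirichletCharacter ℂ q, χ ≠ 1 → DirichletCharacter.LFunction χ (1 / 2) ≠ 0 →
      (deriv (DirichletCharacter.LFunction χ) (1 / 2) /
        DirichletCharacter.LFunction χ (1 / 2)).re ≤ C - 1 / 2 * Real.log q := by
  set c0 : ℂ := deriv Gammaℝ (1 / 2) / Gammaℝ (1 / 2) with hc0
  set c1 : ℂ := deriv Gammaℝ (1 / 2 + 1) / Gammaℝ (1 / 2 + 1) with hc1
  have hre : (0 : ℝ) < ((1 : ℂ) / 2).re := by
    rw [show ((1 : ℂ) / 2) = ((1 / 2 : ℝ) : ℂ) by push_cast; ring, ofReal_re]
    norm_num
  have hre1 : (0 : ℝ) < ((1 : ℂ) / 2 + 1).re := by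
    rw [add_re, one_re]
    linarith
  refine ⟨‖c0‖ + ‖c1‖, fun q _ hqp χ h1 hL => ?_⟩
  have hq : q ≠ 1 := hqp.one_lt.ne'
  have hprim : χ.IsPrimitive := by
    have hdvd := χ.conductor_dvd_level
    rcases (Nat.dvd_prime hqp).1 hdvd with h | h
    · exact absurd (DirichletCharacter.eq_one_iff_conductor_eq_one.2 h) h1
    · exact h
  have hg : DirichletCharacter.gammaFactor χ (1 / 2) ≠ 0 := gammaFactor_ne_zero hre
  have hΛ : DirichletCharacter.completedLFunction χ (1 / 2) ≠ 0 := by
    rw [completed_eq' hq hre]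
    exact mul_ne_zero hL hg
  have key := re_logDeriv_completed hq hprim h1 hΛ
  have hd1 := DirichletCharacter.differentiable_completedLFunction h1
  -- derivative of the gamma factor
  obtain ⟨g', hg', hgc⟩ : ∃ g' : ℂ, HasDerivAt (DirichletCharacter.gammaFactor χ) g' (1 / 2) ∧
      ‖g' / DirichletCharacter.gammaFactor χ (1 / 2)‖ ≤ ‖c0‖ + ‖c1‖ := by
    rcases χ.even_or_odd with h | h
    · refine ⟨deriv Gammaℝ (1 / 2), ?_, ?_⟩
      · have hf : DirichletCharacter.gammaFactor χ = Gammaℝ := by
          funext z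
          exact h.gammaFactor_def z
        rw [hf]
        exact (differentiableAt_Gammaℝ hre).hasDerivAt
      · rw [h.gammaFactor_def, ← hc0]
        linarith [norm_nonneg c1]
    · refine ⟨deriv Gammaℝ (1 / 2 + 1), ?_, ?_⟩
      · have hf : DirichletCharacter.gammaFactor χ = fun z => Gammaℝ (z + 1) := by
          funext z
          exact h.gammaFactor_def z
        rw [hf]
        exact (differentiableAt_Gammaℝ hre1).hasDerivAt.comp_add_const (1 / 2) 1
      · rw [h.gammaFactor_def, ← hc1]
        linarith [norm_nonneg c0]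
  have hfun : DirichletCharacter.LFunction χ = fun s =>
      DirichletCharacter.completedLFunction χ s / DirichletCharacter.gammaFactor χ s := by
    funext s
    exact DirichletCharacter.LFunction_eq_completed_div_gammaFactor χ s (Or.inr hq)
  have hder := ((hd1 (1 / 2)).hasDerivAt.div hg' hg).deriv
  have hder' : deriv (DirichletCharacter.LFunction χ) (1 / 2) =
      (deriv (DirichletCharacter.completedLFunction χ) (1 / 2) *
        DirichletCharacter.gammaFactor χ (1 / 2) -
        DirichletCharacter.completedLFunction χ (1 / 2) * g') /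
        DirichletCharacter.gammaFactor χ (1 / 2) ^ 2 := by
    rw [← hder, hfun]
    rfl
  have e1 : deriv (DirichletCharacter.LFunction χ) (1 / 2) /
      DirichletCharacter.LFunction χ (1 / 2) =
      deriv (DirichletCharacter.completedLFunction χ) (1 / 2) /
        DirichletCharacter.completedLFunction χ (1 / 2) -
      g' / DirichletCharacter.gammaFactor χ (1 / 2) := by
    rw [hder', DirichletCharacter.LFunction_eq_completed_div_gammaFactor χ (1 / 2) (Or.inr hq)]
    field_simp
  rw [e1, sub_re, key]
  have h3 : -(g' / DirichletCharacter.gammaFactor χ (1 / 2)).re ≤ ‖c0‖ + ‖c1‖ :=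
    ((neg_le_abs _).trans (Complex.abs_re_le_norm _)).trans hgc
  linarith

end Pool.Agent.Y847
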